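import Pool.Agent.K1H44.AL.Plan

set_option autoImplicit false

/-! Project AL, piece S: from the odd sums to all sums. -/

namespace Pool.Agent.K1H85.AL

open Pool.Agent.H295R3.W Finset ArithmeticFunction

theorem f_two_mul {m : ℕ} (hm : m ≠ 0) : f (2 * m) = -2 * f m := by
  unfold f
  rw [cardFactors_mul two_ne_zero hm, cardFactors_apply_prime Nat.prime_two, pow_add, pow_one]

theorem S_step {x : ℝ} (hx : 0 ≤ x) : S x = T x + (-2) * S (x / 2) := by
  unfold S T
  rw [← sum_filter_add_sum_filter_not (Icc 1 ⌊x⌋₊) (fun n => n % 2 = 1) f]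
  congr 1
  rw [mul_sum]
  symm
  refine sum_bij (fun m _ => 2 * m) ?_ ?_ ?_ ?_
  · intro m hm
    rw [mem_Icc] at hm
    rw [mem_filter, mem_Icc]
    have h1 : (m : ℝ) ≤ x / 2 := (Nat.le_floor_iff (by positivity)).mp hm.2
    have h2 : 2 * m ≤ ⌊x⌋₊ := by
      refine Nat.le_floor ?_
      push_cast
      linarith
    exact ⟨⟨by omega, h2⟩, by omega⟩
  · intro a _ b _ h
    have h1 : 2 * a = 2 * b := h
    omega
  · intro n hn
    rw [mem_filter, mem_Icc] at hn
    obtain ⟨⟨h1, h2⟩, h3⟩ := hn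
    refine ⟨n / 2, ?_, ?_⟩
    · rw [mem_Icc]
      refine ⟨by omega, ?_⟩
      refine Nat.le_floor ?_
      have h4 : (n : ℝ) ≤ x := (Nat.le_floor_iff hx).mp h2
      have h5 : n = 2 * (n / 2) := by omega
      have h6 : (n : ℝ) = 2 * ((n / 2 : ℕ) : ℝ) := by exact_mod_cast h5
      linarith
    · show 2 * (n / 2) = n
      omega
  · intro m hm
    rw [mem_Icc] at hm
    rw [f_two_mul (by omega)]

theorem t_S : TaskS := by
  intro K
  induction K with
  | zero =>
    intro x hx hx2
    rw [S_step hx]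
    have h1 : ⌊x / 2⌋₊ = 0 := by
      rw [Nat.floor_eq_zero]
      norm_num at hx2
      linarith
    have h2 : S (x / 2) = 0 := by
      unfold S
      rw [h1]
      simp
    rw [h2]
    simp
  | succ K ih =>
    intro x hx hx2
    rw [S_step hx, ih (x / 2) (by positivity) (by
      rw [div_lt_iff₀ (by norm_num : (0:ℝ) < 2), ← pow_succ]
      exact hx2), sum_range_succ' _ (K + 1), mul_sum, add_comm]
    congr 1
    · refine sum_congr rfl fun k _ => ?_
      have h1 : x / 2 ^ (k + 1) = x / 2 / 2 ^ k := by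
        rw [div_div, pow_succ, mul_comm]
      rw [h1, pow_succ]
      ring
    · simp

end Pool.Agent.K1H85.AL
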